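import Pool.Agent.W209.CF.Basic

/-!
CF3-PH3: the remaining odd cycles.
-/

set_option autoImplicit false

namespace Pool.Agent.W929.CF3.PH3

open Finset
open Pool.Agent.W209.CF

section
variable {V E : Type} [Fintype V] [DecidableEq V] [Fintype E] [DecidableEq E]
variable {inc : E → Finset V}

/-- a colouring supported in `K` does not touch vertices outside `K` -/
theorem cnt_off {d : E → Fin 3} {K : Finset E} (hd : ∀ e, d e ≠ 0 → e ∈ K) {v : V}
    (hv : v ∉ VK inc K) {i : Fin 3} (hi : i ≠ 0) : cnt inc d i v = 0 := by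
  rw [cnt_eq_zero]
  intro e he h
  apply hv
  rw [mem_VK]
  exact ⟨e, hd e (by rw [h]; exact hi), he⟩

theorem cnt_of_dg {c : E → Fin 3} {v : V} (h : dg inc c v = 0) {i : Fin 3} (hi : i ≠ 0) :
    cnt inc c i v = 0 := by
  unfold dg at h
  rcases eq_one_or_two hi with rfl | rfl <;> omega

theorem dg_of_cnt {c : E → Fin 3} {v : V} (h : ∀ i : Fin 3, i ≠ 0 → cnt inc c i v = 0) :
    dg inc c v = 0 := by
  unfold dg
  rw [h 1 (by decide), h 2 (by decide)]

/-- families with uncovered vertices are uncoloured -/
theorem col_zero (h3 : ∀ e, (inc e).card = 3) {c : E → Fin 3} {K : Finset E}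
    (h : ∀ v ∈ VK inc K, dg inc c v = 0) : ∀ e ∈ K, c e = 0 := by
  intro e he
  obtain ⟨v, hv⟩ : (inc e).Nonempty := by
    rw [← Finset.card_pos, h3 e]; omega
  exact dg_eq_zero.1 (h v (mem_VK.2 ⟨e, he, hv⟩)) e hv

/-- the counts after colouring `f` and a family `K` -/
theorem cnt_patch {c d : E → Fin 3} {K : Finset E} {f : E} (hf : c f = 0) (hfK : f ∉ K)
    (hcK : ∀ e ∈ K, c e = 0) (hd : ∀ e, d e ≠ 0 → e ∈ K) (γ : Fin 3) {i : Fin 3} (hi : i ≠ 0)
    (v : V) : cnt inc (join d (Function.update c f γ)) i v =
      cnt inc d i v + (cnt inc c i v + (if v ∈ inc f ∧ γ = i then 1 else 0)) := by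
  rw [cnt_join _ hi, cnt_update hf γ hi]
  intro e _
  by_cases h : d e = 0
  · exact Or.inl h
  · right
    have h1 := hd e h
    have h2 : e ≠ f := fun h => hfK (h ▸ h1)
    rw [Function.update_of_ne h2, hcK e h1]

theorem good_of {c c' : E → Fin 3} {v : V} (h : Good inc c v)
    (h1 : ∀ i : Fin 3, i ≠ 0 → cnt inc c' i v = cnt inc c i v) : Good inc c' v := by
  unfold Good at *
  rw [h1 1 (by decide), h1 2 (by decide)]
  exact h

theorem good_ok {c' d : E → Fin 3} {K : Finset E} {A : Finset V} {γ : Fin 3} {v : V}
    (hd : OKwith inc K d A γ) (hv : v ∈ VK inc K)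
    (h1 : ∀ i : Fin 3, i ≠ 0 → cnt inc c' i v = cnt inc d i v + (if v ∈ A ∧ γ = i then 1 else 0)) :
    Good inc c' v := by
  unfold Good
  rw [h1 1 (by decide), h1 2 (by decide)]
  exact hd.2 v hv

end

theorem ph3 : S_F → S_hit → S_ph3 := by
  intro hSF hShit V E _ _ _ _ inc h3 s D c0 S0 hInv
  -- the induction
  have key : ∀ n : ℕ, ∀ (c : E → Fin 3) (S : Finset V), (D.U \ S).card ≤ n →
      (∀ v, ¬ (∃ u ∈ D.U, u ∉ S ∧ v ∈ VK inc (D.K u)) → Good inc c v) →
      (∀ v, (∃ u ∈ D.U, u ∉ S ∧ v ∈ VK inc (D.K u)) → dg inc c v = 0) →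
      ∃ c', ∀ v, Good inc c' v := by
    intro n
    induction n using Nat.strong_induction_on with
    | _ n ih =>
    intro c S hcard hgood hzero
    by_cases hemp : D.U \ S = ∅
    · refine ⟨c, fun v => hgood v ?_⟩
      rintro ⟨u, hu, huS, -⟩
      have : u ∈ D.U \ S := Finset.mem_sdiff.2 ⟨hu, huS⟩
      rw [hemp] at this
      exact absurd this (Finset.notMem_empty u)
    obtain ⟨u, hu'⟩ := Finset.nonempty_iff_ne_empty.2 hemp
    obtain ⟨hu, huS⟩ := Finset.mem_sdiff.1 hu'
    obtain ⟨hf1, hf2, hf3⟩ := D.hf u hu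
    set f := D.f u with hfdef
    have hzK : ∀ v ∈ VK inc (D.K u), dg inc c v = 0 := fun v hv => hzero v ⟨u, hu, huS, hv⟩
    have hcf : c f = 0 := by
      obtain ⟨v, hv⟩ : (inc f ∩ VK inc (D.K u)).Nonempty := by
        rw [← Finset.card_pos]; omega
      rw [Finset.mem_inter] at hv
      exact dg_eq_zero.1 (hzK v hv.2) f hv.1
    have hcK : ∀ e ∈ D.K u, c e = 0 := col_zero h3 hzK
    have hlt : (D.U \ insert u S).card < (D.U \ S).card := by
      refine Finset.card_lt_card ?_
      rw [Finset.ssubset_iff_of_subset]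
      · exact ⟨u, hu', by simp⟩
      · intro v hv
        rw [Finset.mem_sdiff, Finset.mem_insert] at hv
        rw [Finset.mem_sdiff]
        exact ⟨hv.1, fun h => hv.2 (Or.inr h)⟩
    -- disjointness with the other families
    have hdis : ∀ v, (∃ u' ∈ D.U, u' ∉ insert u S ∧ v ∈ VK inc (D.K u')) →
        v ∉ VK inc (D.K u) ∧ dg inc c v = 0 := by
      rintro v ⟨u', hu1, hu2, hu3⟩
      rw [Finset.mem_insert, not_or] at hu2
      refine ⟨fun h => ?_, hzero v ⟨u', hu1, hu2.2, hu3⟩⟩
      exact Finset.disjoint_left.1 (D.hKd u hu u' hu1 (Ne.symm hu2.1)) h hu3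
    have hnB : ∀ v, v ∉ VK inc (D.K u) →
        ¬ (∃ u' ∈ D.U, u' ∉ insert u S ∧ v ∈ VK inc (D.K u')) → Good inc c v := by
      intro v hv h
      refine hgood v ?_
      rintro ⟨u', hu1, hu2, hu3⟩
      refine h ⟨u', hu1, ?_, hu3⟩
      rw [Finset.mem_insert, not_or]
      refine ⟨?_, hu2⟩
      rintro rfl
      exact hv hu3
    by_cases hsub : inc f ⊆ VK inc (D.K u)
    · -- case 1
      obtain ⟨d, hd⟩ := hSF V E inc h3 (D.K u) (D.hKodd u hu) f hf1 hf2 hf3 1 (by decide)
      have hcp : ∀ (i : Fin 3), i ≠ 0 → ∀ v : V,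
          cnt inc (join d (Function.update c f 1)) i v =
          cnt inc d i v + (cnt inc c i v + (if v ∈ inc f ∧ 1 = i then 1 else 0)) :=
        fun i hi v => cnt_patch hcf hf1 hcK hd.1 1 hi v
      refine ih (D.U \ insert u S).card (by omega) (join d (Function.update c f 1))
        (insert u S) le_rfl ?_ ?_
      · intro v hv
        by_cases hvK : v ∈ VK inc (D.K u)
        · refine good_ok hd hvK (fun i hi => ?_)
          rw [hcp i hi v, cnt_of_dg (hzK v hvK) hi, Nat.zero_add]
        · refine good_of (hnB v hvK hv) (fun i hi => ?_)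
          rw [hcp i hi v, cnt_off hd.1 hvK hi, if_neg (fun h => hvK (hsub h.1))]
          omega
      · intro v hv
        obtain ⟨h1, h2⟩ := hdis v hv
        refine dg_of_cnt (fun i hi => ?_)
        rw [hcp i hi v, cnt_off hd.1 h1 hi, cnt_of_dg h2 hi, if_neg (fun h => h1 (hsub h.1))]
    · -- case 2
      obtain ⟨x, hx1, hx2⟩ := Finset.not_subset.1 hsub
      have hxu : ∀ v ∈ inc f, v ∉ VK inc (D.K u) → v = x := by
        intro v hv hvK
        have hc1 : (inc f \ VK inc (D.K u)).card ≤ 1 := by
          have := Finset.card_inter_add_card_sdiff (inc f) (VK inc (D.K u))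
          have h33 := h3 f
          omega
        exact Finset.card_le_one.1 hc1 v (Finset.mem_sdiff.2 ⟨hv, hvK⟩) x
          (Finset.mem_sdiff.2 ⟨hx1, hx2⟩)
      by_cases hxB : ∃ u' ∈ D.U, u' ∉ S ∧ x ∈ VK inc (D.K u')
      · -- case 2b
        obtain ⟨u', hu1, hu2, hu3⟩ := hxB
        have huu : u ≠ u' := by
          rintro rfl
          exact hx2 hu3
        have hdKK := D.hKd u hu u' hu1 huu
        obtain ⟨d, hd⟩ := hSF V E inc h3 (D.K u) (D.hKodd u hu) f hf1 hf2 hf3 1 (by decide)
        obtain ⟨d', hd'⟩ := hShit V E inc h3 (D.K u') (D.hKodd u' hu1) x hu3 1 (by decide)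
        have hzK' : ∀ v ∈ VK inc (D.K u'), dg inc c v = 0 :=
          fun v hv => hzero v ⟨u', hu1, hu2, hv⟩
        have hcK' : ∀ e ∈ D.K u', c e = 0 := col_zero h3 hzK'
        have hfK' : f ∉ D.K u' := by
          intro h
          obtain ⟨v, hv⟩ : (inc f ∩ VK inc (D.K u)).Nonempty := by
            rw [← Finset.card_pos]; omega
          rw [Finset.mem_inter] at hv
          exact Finset.disjoint_left.1 hdKK hv.2 (mem_VK.2 ⟨f, h, hv.1⟩)
        have hKK' : ∀ e ∈ D.K u', e ∉ D.K u := by
          intro e he he'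
          obtain ⟨v, hv⟩ : (inc e).Nonempty := by
            rw [← Finset.card_pos, h3 e]; omega
          exact Finset.disjoint_left.1 hdKK (mem_VK.2 ⟨e, he', hv⟩) (mem_VK.2 ⟨e, he, hv⟩)
        have hcp : ∀ (i : Fin 3), i ≠ 0 → ∀ v : V,
            cnt inc (join d' (join d (Function.update c f 1))) i v = cnt inc d' i v +
            (cnt inc d i v + (cnt inc c i v + (if v ∈ inc f ∧ 1 = i then 1 else 0))) := by
          intro i hi v
          rw [cnt_join _ hi, cnt_patch hcf hf1 hcK hd.1 1 hi v]
          intro e _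
          by_cases h : d' e = 0
          · exact Or.inl h
          · right
            have h1 := hd'.1 e h
            have h2 : d e = 0 := by
              by_contra h2
              exact hKK' e h1 (hd.1 e h2)
            have h4 : e ≠ f := fun h => hfK' (h ▸ h1)
            rw [join, if_pos h2, Function.update_of_ne h4, hcK' e h1]
        have hlt' : (D.U \ insert u' (insert u S)).card ≤ (D.U \ insert u S).card := by
          refine Finset.card_le_card ?_
          intro v hv
          rw [Finset.mem_sdiff, Finset.mem_insert, not_or] at hv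
          exact Finset.mem_sdiff.2 ⟨hv.1, hv.2.2⟩
        refine ih (D.U \ insert u' (insert u S)).card (by omega)
          (join d' (join d (Function.update c f 1))) (insert u' (insert u S)) le_rfl ?_ ?_
        · intro v hv
          by_cases hvK : v ∈ VK inc (D.K u)
          · have hvK' : v ∉ VK inc (D.K u') := Finset.disjoint_left.1 hdKK hvK
            refine good_ok hd hvK (fun i hi => ?_)
            rw [hcp i hi v, cnt_of_dg (hzK v hvK) hi, cnt_off hd'.1 hvK' hi, Nat.zero_add,
              Nat.zero_add]
          · by_cases hvK' : v ∈ VK inc (D.K u')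
            · refine good_ok hd' hvK' (fun i hi => ?_)
              rw [hcp i hi v, cnt_of_dg (hzK' v hvK') hi, cnt_off hd.1 hvK hi]
              have hiff : (v ∈ inc f) ↔ v ∈ ({x} : Finset V) := by
                rw [Finset.mem_singleton]
                constructor
                · intro h
                  exact hxu v h hvK
                · rintro rfl
                  exact hx1
              simp only [hiff]
              omega
            · have hvf : v ∉ inc f := by
                intro h
                apply hvK'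
                rw [hxu v h hvK]
                exact hu3
              refine good_of (hnB v hvK ?_) (fun i hi => ?_)
              · rintro ⟨u2, ha, hb, hcc⟩
                refine hv ⟨u2, ha, ?_, hcc⟩
                rw [Finset.mem_insert, not_or]
                refine ⟨?_, hb⟩
                rintro rfl
                exact hvK' hcc
              · rw [hcp i hi v, cnt_off hd.1 hvK hi, cnt_off hd'.1 hvK' hi,
                  if_neg (fun h => hvf h.1)]
                omega
        · rintro v ⟨u2, ha, hb, hcc⟩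
          rw [Finset.mem_insert, not_or] at hb
          obtain ⟨h1, h2⟩ := hdis v ⟨u2, ha, hb.2, hcc⟩
          have h1' : v ∉ VK inc (D.K u') := fun h =>
            Finset.disjoint_left.1 (D.hKd u' hu1 u2 ha (Ne.symm hb.1)) h hcc
          have hvf : v ∉ inc f := by
            intro h
            apply h1'
            rw [hxu v h h1]
            exact hu3
          refine dg_of_cnt (fun i hi => ?_)
          rw [hcp i hi v, cnt_off hd.1 h1 hi, cnt_off hd'.1 h1' hi, cnt_of_dg h2 hi,
            if_neg (fun h => hvf h.1)]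
      · -- case 2a
        have hxg := hgood x hxB
        obtain ⟨γ, hγ0, hγ⟩ : ∃ γ : Fin 3, γ ≠ 0 ∧ cnt inc c (opp γ) x = 1 := by
          rcases hxg with h | h
          · exact ⟨2, by decide, by rw [opp_two]; exact h⟩
          · exact ⟨1, by decide, by rw [opp_one]; exact h⟩
        obtain ⟨d, hd⟩ := hSF V E inc h3 (D.K u) (D.hKodd u hu) f hf1 hf2 hf3 γ hγ0
        have hcp : ∀ (i : Fin 3), i ≠ 0 → ∀ v : V,
            cnt inc (join d (Function.update c f γ)) i v =
            cnt inc d i v + (cnt inc c i v + (if v ∈ inc f ∧ γ = i then 1 else 0)) :=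
          fun i hi v => cnt_patch hcf hf1 hcK hd.1 γ hi v
        refine ih (D.U \ insert u S).card (by omega) (join d (Function.update c f γ))
          (insert u S) le_rfl ?_ ?_
        · intro v hv
          by_cases hvK : v ∈ VK inc (D.K u)
          · refine good_ok hd hvK (fun i hi => ?_)
            rw [hcp i hi v, cnt_of_dg (hzK v hvK) hi, Nat.zero_add]
          · by_cases hvf : v ∈ inc f
            · have hvx := hxu v hvf hvK
              subst hvx
              have h1 : cnt inc (join d (Function.update c f γ)) (opp γ) v = 1 := by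
                rw [hcp (opp γ) (opp_ne_zero hγ0) v, cnt_off hd.1 hvK (opp_ne_zero hγ0), hγ,
                  if_neg (fun h => opp_ne_self hγ0 h.2.symm)]
              rcases eq_one_or_two (opp_ne_zero hγ0) with h2 | h2
              · rw [h2] at h1
                exact Or.inl h1
              · rw [h2] at h1
                exact Or.inr h1
            · refine good_of (hnB v hvK hv) (fun i hi => ?_)
              rw [hcp i hi v, cnt_off hd.1 hvK hi, if_neg (fun h => hvf h.1)]
              omega
        · intro v hv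
          obtain ⟨h1, h2⟩ := hdis v hv
          have hvf : v ∉ inc f := by
            intro h
            have h4 := hxu v h h1
            apply hxB
            obtain ⟨u2, ha, hb, hcc⟩ := hv
            rw [Finset.mem_insert, not_or] at hb
            exact ⟨u2, ha, hb.2, h4 ▸ hcc⟩
          refine dg_of_cnt (fun i hi => ?_)
          rw [hcp i hi v, cnt_off hd.1 h1 hi, cnt_of_dg h2 hi, if_neg (fun h => hvf h.1)]
  have hbad : ∀ v, bad D D.T S0 v ↔ ∃ u ∈ D.U, u ∉ S0 ∧ v ∈ VK inc (D.K u) := by
    intro v
    constructor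
    · rintro (⟨h1, h2⟩ | h)
      · exact absurd h1 h2
      · exact h
    · exact Or.inr
  exact key (D.U \ S0).card c0 S0 le_rfl
    (fun v hv => hInv.good v (fun h => hv ((hbad v).1 h)))
    (fun v hv => hInv.zero v ((hbad v).2 hv))

end Pool.Agent.W929.CF3.PH3
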